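import Pool.Agent.helper4.T7.SpecQ

set_option autoImplicit false

/-! Row t7:QER (MP_16912e_nt): the error in boxes, pair by pair, up to the critical size. -/

namespace Pool.Agent.T7

open Finset Pool.Agent.helper3.FT Pool.Agent.T5 Pool.Agent.T6

/-! ### Arithmetic -/

theorem QER_e1_congr {e n m : ℕ} (h : ∀ p : ℕ, p.Prime → p ∣ e → (p ∣ n ↔ p ∣ m)) : e1 e n = e1 e m := by
  unfold e1
  congr 1
  refine Finset.filter_congr fun p hp => ?_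
  rw [h p (Nat.prime_of_mem_primeFactors hp) (Nat.dvd_of_mem_primeFactors hp)]

theorem QER_e1_class {e n : ℕ} {c : ℤ} (h : (e : ℤ) ∣ (n : ℤ) - c) : e1 e n = e1 e c.natAbs := by
  refine QER_e1_congr fun p _ hpe => ?_
  have h1 : (p : ℤ) ∣ (n : ℤ) - c := (Int.natCast_dvd_natCast.2 hpe).trans h
  rw [← Int.natCast_dvd_natCast (n := n), ← Int.natCast_dvd]
  constructor
  · intro h2
    have := dvd_sub h2 h1
    simpa using this
  · intro h2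
    have := dvd_add h1 h2
    simpa using this

theorem QER_e1_pos (e n : ℕ) : 1 ≤ e1 e n := by
  have h : 0 < e1 e n := Finset.prod_pos fun p hp =>
    pow_pos (Nat.prime_of_mem_primeFactors (Finset.mem_filter.1 hp).1).pos _
  exact h

theorem QER_e1_coprime (e n : ℕ) : Nat.Coprime n (e1 e n) := by
  refine Nat.Coprime.prod_right fun p hp => ?_
  obtain ⟨h1, h2⟩ := Finset.mem_filter.1 hp
  refine Nat.Coprime.pow_right _ ?_
  exact ((Nat.prime_of_mem_primeFactors h1).coprime_iff_not_dvd.2 h2).symm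

theorem QER_e1_dvd (e n : ℕ) (he : 1 ≤ e) : e1 e n ∣ e := by
  have h1 : ∏ p ∈ e.primeFactors, p ^ (e.factorization p) = e := Nat.prod_factorization_pow_eq_self (by omega)
  have h2 : e1 e n ∣ ∏ p ∈ e.primeFactors, p ^ (e.factorization p) :=
    Finset.prod_dvd_prod_of_subset _ _ _ (Finset.filter_subset _ _)
  rw [h1] at h2
  exact h2

/-! ### The range -/

theorem QER_Rg (η N Y Y₂ : ℝ) (hη : 0 < η) (hN : 2 ≤ N) (h : Rg η N Y Y₂) : 0 < Y := by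
  have hN1 : 1 < N := by linarith
  have hNp : 0 < N := by linarith
  have hP : 0 < Y * Y₂ := lt_of_lt_of_le (Real.rpow_pos_of_pos hNp _) h.r4
  by_contra hY
  have hY' : Y ≤ 0 := not_lt.1 hY
  have hY0 : Y < 0 := by
    rcases hY'.lt_or_eq with h1 | h1
    · exact h1
    · rw [h1, zero_mul] at hP
      exact absurd hP (lt_irrefl _)
  have h1 : 1 < N ^ η := Real.one_lt_rpow hN1 hη
  have h2 : N ^ η * Y < 1 * Y := mul_lt_mul_of_neg_right h1 hY0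
  have h3 := h.r1
  have h4 := h.r2
  linarith

theorem QER_Rg' (η η' N Y Y₂ : ℝ) (hη : η ≤ η') (hN : 1 ≤ N) (hY : 0 ≤ Y) (h : Rg η N Y Y₂) :
    Rg η' N Y Y₂ := by
  obtain ⟨h1, h2, h3, h4⟩ := h
  refine ⟨h1, le_trans h2 ?_, h3, le_trans ?_ h4⟩
  · exact mul_le_mul_of_nonneg_right (Real.rpow_le_rpow_of_exponent_le hN hη) hY
  · exact Real.rpow_le_rpow_of_exponent_le hN (by linarith)

theorem QER_eq {N Y Y₂ : ℝ} (hN : 0 < N) (hY : 0 < Y) (hY2 : 0 < Y₂) : sM N Y Y₂ * sG N Y Y₂ = Y₂ * sN N Y Y₂ ^ 2 := by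
  unfold sM sG sN
  have h1 : √Y * √Y = Y := Real.mul_self_sqrt hY.le
  have h2 : √Y₂ * √Y₂ = Y₂ := Real.mul_self_sqrt hY2.le
  have h3 : 0 < √N := Real.sqrt_pos.2 hN
  have e1 : Y * √Y * √Y₂ / √N * (√Y * Y₂ * √Y₂ / √N) = Y * Y₂ * (√Y * √Y) * (√Y₂ * √Y₂) / (√N * √N) := by
    field_simp
  have e2 : Y₂ * (Y * √Y₂ / √N) ^ 2 = Y₂ * Y ^ 2 * (√Y₂ * √Y₂) / (√N * √N) := by
    field_simp
  rw [e1, e2, h1, h2]
  ring

/-! ### Sums over the pairs -/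

/-- the sum over the pairs -/
theorem QER_W {a₀ a₁ A₀ A₁ : ℝ} (h0 : 0 < a₀) (h1 : 0 < a₁) (hA0 : 0 ≤ A₀) (hA1 : 0 ≤ A₁) {W : Finset (ℕ × ℕ)}
    (hW : ∀ p ∈ W, a₀ ≤ p.1 ∧ (p.1 : ℝ) ≤ A₀ ∧ a₁ ≤ p.2 ∧ (p.2 : ℝ) ≤ A₁ ∧ 1 ≤ p.1 ∧ 1 ≤ p.2) :
    ∑ p ∈ W, 1 / ((p.1 : ℝ) ^ 3 * p.2) ≤ A₀ * A₁ / (a₀ ^ 3 * a₁) := by
  have hcard : (W.card : ℝ) ≤ A₀ * A₁ := by
    have hsub : W ⊆ Finset.Icc 1 ⌊A₀⌋₊ ×ˢ Finset.Icc 1 ⌊A₁⌋₊ := by
      intro p hp
      obtain ⟨-, q2, -, q4, q5, q6⟩ := hW p hp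
      rw [Finset.mem_product, Finset.mem_Icc, Finset.mem_Icc]
      exact ⟨⟨q5, Nat.le_floor q2⟩, ⟨q6, Nat.le_floor q4⟩⟩
    have hc := Finset.card_le_card hsub
    rw [Finset.card_product, Nat.card_Icc, Nat.card_Icc, Nat.add_sub_cancel, Nat.add_sub_cancel] at hc
    calc (W.card : ℝ) ≤ ((⌊A₀⌋₊ * ⌊A₁⌋₊ : ℕ) : ℝ) := by exact_mod_cast hc
      _ = (⌊A₀⌋₊ : ℝ) * ⌊A₁⌋₊ := by push_cast; rfl
      _ ≤ A₀ * A₁ := mul_le_mul (Nat.floor_le hA0) (Nat.floor_le hA1) (by positivity) hA0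
  have hterm : ∀ p ∈ W, 1 / ((p.1 : ℝ) ^ 3 * p.2) ≤ 1 / (a₀ ^ 3 * a₁) := by
    intro p hp
    obtain ⟨q1, -, q3, -, -, -⟩ := hW p hp
    refine one_div_le_one_div_of_le (by positivity) ?_
    gcongr
  calc ∑ p ∈ W, 1 / ((p.1 : ℝ) ^ 3 * p.2) ≤ W.card • (1 / (a₀ ^ 3 * a₁)) := Finset.sum_le_card_nsmul _ _ _ hterm
    _ = W.card * (1 / (a₀ ^ 3 * a₁)) := by rw [nsmul_eq_mul]
    _ ≤ (A₀ * A₁) * (1 / (a₀ ^ 3 * a₁)) := by gcongr
    _ = A₀ * A₁ / (a₀ ^ 3 * a₁) := by ring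

open Classical in
/-- covering by blocks -/
theorem QER_cover {ι : Type} {W : Finset (ℕ × ℕ)} {B : Finset ι} (P : ι → ℕ × ℕ → Prop)
    (hP : ∀ p ∈ W, ∃ b ∈ B, P b p) {u : ℕ × ℕ → ℝ} (hu : ∀ p, 0 ≤ u p) {E : ℝ}
    (hE : ∀ b ∈ B, ∀ W' : Finset (ℕ × ℕ), (∀ p ∈ W', p ∈ W ∧ P b p) → ∑ p ∈ W', u p ≤ E) :
    ∑ p ∈ W, u p ≤ B.card * E := by
  calc ∑ p ∈ W, u p ≤ ∑ p ∈ W, ∑ b ∈ B, if P b p then u p else 0 := by
        refine Finset.sum_le_sum fun p hp => ?_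
        obtain ⟨b, hb, hPb⟩ := hP p hp
        have h1 : (if P b p then u p else 0) ≤ ∑ b ∈ B, if P b p then u p else 0 :=
          Finset.single_le_sum (f := fun b => if P b p then u p else 0)
            (fun b _ => by
              by_cases h : P b p
              · simp only [h, if_true]
                exact hu p
              · simp only [h, if_false]
                exact le_rfl) hb
        rw [if_pos hPb] at h1
        exact h1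
    _ = ∑ b ∈ B, ∑ p ∈ W, if P b p then u p else 0 := Finset.sum_comm
    _ = ∑ b ∈ B, ∑ p ∈ W.filter (P b), u p := by
        refine Finset.sum_congr rfl fun b _ => ?_
        rw [Finset.sum_filter]
    _ ≤ B.card • E := Finset.sum_le_card_nsmul _ _ _ fun b hb => hE b hb _ fun p hp => Finset.mem_filter.1 hp
    _ = B.card * E := by rw [nsmul_eq_mul]

/-! ### One pair -/

theorem QER_alg {η₁ κ C D2 D3 u w L L' V X : ℝ} (h0 : 0 ≤ η₁) (hκ : 0 < κ) (hκ1 : κ ≤ 1) (hC : 0 ≤ C) (h2 : 0 < D2)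
    (h3 : 0 < D3) (hu : 0 < u) (hw : 0 < w) (hL1 : κ * u ≤ L) (hL2 : L ≤ 2 * κ * u) (hL3 : κ * w ≤ L')
    (hL4 : L' ≤ 2 * κ * w) (hV : 0 ≤ V) (hX : 0 ≤ X) :
    V * (η₁ * ((D2 * u + 8 * L) * (D3 * w + 8 * L')) + (8 * L * (D3 * w) + 8 * L' * (D2 * u) + 64 * L * L') +
      C * (D2 * u / L + 4) * (D3 * w / L' + 4) * X) ≤
    V * ((η₁ * ((D2 + 16) * (D3 + 16)) + κ * (16 * D2 + 16 * D3 + 256)) * (u * w)) +
      V * (C * (D2 / κ + 4) * (D3 / κ + 4) * X) := by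
  have L0 : 0 < L := lt_of_lt_of_le (by positivity) hL1
  have L0' : 0 < L' := lt_of_lt_of_le (by positivity) hL3
  have a1 : L ≤ 2 * u := hL2.trans (by nlinarith)
  have a2 : L' ≤ 2 * w := hL4.trans (by nlinarith)
  have b1 : (D2 * u + 8 * L) * (D3 * w + 8 * L') ≤ ((D2 + 16) * (D3 + 16)) * (u * w) := by
    calc (D2 * u + 8 * L) * (D3 * w + 8 * L') ≤ (D2 * u + 8 * (2 * u)) * (D3 * w + 8 * (2 * w)) := by gcongr
      _ = _ := by ring
  have b2 : 8 * L * (D3 * w) ≤ κ * (16 * D3) * (u * w) := by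
    calc 8 * L * (D3 * w) ≤ 8 * (2 * κ * u) * (D3 * w) := by gcongr
      _ = _ := by ring
  have b3 : 8 * L' * (D2 * u) ≤ κ * (16 * D2) * (u * w) := by
    calc 8 * L' * (D2 * u) ≤ 8 * (2 * κ * w) * (D2 * u) := by gcongr
      _ = _ := by ring
  have b4 : 64 * L * L' ≤ κ * 256 * (u * w) := by
    calc 64 * L * L' ≤ 64 * (2 * κ * u) * (2 * w) := by gcongr
      _ = κ * 256 * (u * w) := by ring
  have b5 : D2 * u / L ≤ D2 / κ := by
    rw [div_le_div_iff₀ L0 hκ]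
    calc D2 * u * κ = D2 * (κ * u) := by ring
      _ ≤ D2 * L := by gcongr
  have b6 : D3 * w / L' ≤ D3 / κ := by
    rw [div_le_div_iff₀ L0' hκ]
    calc D3 * w * κ = D3 * (κ * w) := by ring
      _ ≤ D3 * L' := by gcongr
  have b7 : C * (D2 * u / L + 4) * (D3 * w / L' + 4) * X ≤ C * (D2 / κ + 4) * (D3 / κ + 4) * X := by gcongr
  have b8 : η₁ * ((D2 * u + 8 * L) * (D3 * w + 8 * L')) ≤ η₁ * (((D2 + 16) * (D3 + 16)) * (u * w)) :=
    mul_le_mul_of_nonneg_left b1 h0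
  rw [← mul_add]
  refine mul_le_mul_of_nonneg_left ?_ hV
  linarith

open Classical in
theorem QER (hQP2 : QP2_stmt) (hESN : ESN_stmt) (hQSZ : QSZ_stmt) (hDYB : DYB_stmt) (hESZ : ESZ_stmt) : QER_stmt := by
  rintro ⟨y₀, B, C₀, τ, hy₀, hC₀, hτ, hτ1, hLFS⟩
  obtain ⟨CS, hCS, hS⟩ := hESN y₀ B C₀ τ hy₀ hC₀ hτ hτ1 hLFS
  obtain ⟨η, hη, hη1, hSZ⟩ := hQSZ B τ hτ
  refine ⟨η, hη, hη1, ?_⟩
  intro a b ha0 ha1 ha4 hab e c he _ ε hε
  obtain ⟨e', hee⟩ : ∃ x, x = e1 e (c 0).natAbs := ⟨_, rfl⟩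
  have he' : 1 ≤ e' := by rw [hee]; exact QER_e1_pos _ _
  have hdvd : e' ∣ e := by rw [hee]; exact QER_e1_dvd _ _ he
  have heR : (1 : ℝ) ≤ e := by exact_mod_cast he
  have he'R : (1 : ℝ) ≤ e' := by exact_mod_cast he'
  have he0 : (0 : ℝ) < e := by linarith
  have he'0 : (0 : ℝ) < e' := by linarith
  have hb0 : 0 < b 0 := ha0.trans (hab 0)
  have hb1 : 0 < b 1 := ha1.trans (hab 1)
  obtain ⟨D2, hD2⟩ : ∃ x, x = b 2 - a 2 := ⟨_, rfl⟩
  obtain ⟨D3, hD3⟩ : ∃ x, x = b 3 - a 3 := ⟨_, rfl⟩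
  obtain ⟨D4, hD4⟩ : ∃ x, x = b 4 - a 4 := ⟨_, rfl⟩
  have D2p : 0 < D2 := by rw [hD2]; exact sub_pos.2 (hab 2)
  have D3p : 0 < D3 := by rw [hD3]; exact sub_pos.2 (hab 3)
  have D4p : 0 < D4 := by rw [hD4]; exact sub_pos.2 (hab 4)
  obtain ⟨B₁, hB₁⟩ : ∃ x, x = D4 * (b 0 * b 1) / (a 0 ^ 3 * a 1) := ⟨_, rfl⟩
  have B₁p : 0 < B₁ := by rw [hB₁]; positivity
  -- the small parameters
  obtain ⟨η₁, hη₁⟩ : ∃ x, x = min 1 (ε / (2 * ((D2 + 16) * (D3 + 16)) * B₁)) := ⟨_, rfl⟩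
  obtain ⟨κ, hκ⟩ : ∃ x, x = min 1 (ε / (2 * (16 * D2 + 16 * D3 + 256) * B₁)) := ⟨_, rfl⟩
  have η₁p : 0 < η₁ := by rw [hη₁]; exact lt_min one_pos (by positivity)
  have η₁1 : η₁ ≤ 1 := by rw [hη₁]; exact min_le_left _ _
  have κp : 0 < κ := by rw [hκ]; exact lt_min one_pos (by positivity)
  have κ1 : κ ≤ 1 := by rw [hκ]; exact min_le_left _ _
  have hη₁ε : η₁ * ((D2 + 16) * (D3 + 16)) * B₁ ≤ ε / 2 := by
    have h1 : η₁ ≤ ε / (2 * ((D2 + 16) * (D3 + 16)) * B₁) := by rw [hη₁]; exact min_le_right _ _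
    rw [le_div_iff₀ (by positivity)] at h1
    linarith
  have hκε : κ * (16 * D2 + 16 * D3 + 256) * B₁ ≤ ε / 2 := by
    have h1 : κ ≤ ε / (2 * (16 * D2 + 16 * D3 + 256) * B₁) := by rw [hκ]; exact min_le_right _ _
    rw [le_div_iff₀ (by positivity)] at h1
    linarith
  obtain ⟨R, CP, hR, hCP, hP2⟩ := hQP2 η₁ η₁p η₁1
  have CP0 : 0 < CP := by linarith
  have CS0 : 0 < CS := by linarith
  obtain ⟨c₀, hc₀⟩ : ∃ x, x = min (a 0) (a 1) := ⟨_, rfl⟩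
  obtain ⟨C₀', hC₀'⟩ : ∃ x, x = 1 + 2 * b 0 + 2 * b 1 := ⟨_, rfl⟩
  have c₀p : 0 < c₀ := by rw [hc₀]; exact lt_min ha0 ha1
  have hc₀a : c₀ ≤ a 0 := by rw [hc₀]; exact min_le_left _ _
  have hc₀b : c₀ ≤ a 1 := by rw [hc₀]; exact min_le_right _ _
  have hC₀1 : 1 ≤ C₀' := by rw [hC₀']; linarith
  obtain ⟨C₁, N₀, hC₁, hSZ⟩ := hSZ c₀ C₀' κ D4 R e e' c₀p hC₀1 κp κ1 D4p hR he hdvd
  have C₁0 : 0 < C₁ := by linarith
  obtain ⟨N₀', hZ⟩ := hESZ (1 / a 0 + 1 / a 1 + 1)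
  obtain ⟨C₃, hC₃⟩ : ∃ x, x = CP * (D2 / κ + 4) * (D3 / κ + 4) := ⟨_, rfl⟩
  have C₃p : 0 < C₃ := by rw [hC₃]; positivity
  obtain ⟨B₂, hB₂⟩ : ∃ x, x = (2 + 2 * Real.log (b 0 / a 0)) * (2 + 2 * Real.log (b 1 / a 1)) := ⟨_, rfl⟩
  have hlog0 : 0 ≤ Real.log (b 0 / a 0) := Real.log_nonneg (by rw [one_le_div ha0]; exact (hab 0).le)
  have hlog1 : 0 ≤ Real.log (b 1 / a 1) := Real.log_nonneg (by rw [one_le_div ha1]; exact (hab 1).le)
  have B₂p : 0 < B₂ := by rw [hB₂]; positivity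
  obtain ⟨C₄, hC₄⟩ : ∃ x, x = B₂ * (32 * D4 * C₃ * CS * C₁) := ⟨_, rfl⟩
  have C₄p : 0 < C₄ := by rw [hC₄]; positivity
  refine ⟨1 + C₄, max (max N₀ N₀') 2, by linarith, ?_⟩
  intro N Y Y₂ hN hRg F W hFm hWm
  have hN0 : N₀ ≤ N := le_trans (le_trans (le_max_left _ _) (le_max_left _ _)) hN
  have hN0' : N₀' ≤ N := le_trans (le_trans (le_max_right _ _) (le_max_left _ _)) hN
  have hN2 : 2 ≤ N := le_trans (le_max_right _ _) hN
  have hNp : 0 < N := by linarith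
  have Yp : 0 < Y := QER_Rg η N Y Y₂ hη hN2 hRg
  obtain ⟨-, z1, z2, z3, z4, z5, z6⟩ := hZ N Y Y₂ hN0' (QER_Rg' η (1 / 100) N Y Y₂ hη1 (by linarith) Yp.le hRg)
  have hX1 : 1 ≤ 1 / a 0 + 1 / a 1 + 1 := by
    have : 0 < 1 / a 0 := by positivity
    have : 0 < 1 / a 1 := by positivity
    linarith
  have Y2p : 0 < Y₂ := by linarith
  obtain ⟨sn, hsn⟩ : ∃ x, x = sN N Y Y₂ := ⟨_, rfl⟩
  obtain ⟨sk, hsk⟩ : ∃ x, x = sK N Y Y₂ := ⟨_, rfl⟩
  obtain ⟨sm, hsm⟩ : ∃ x, x = sM N Y Y₂ := ⟨_, rfl⟩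
  obtain ⟨sg, hsg⟩ : ∃ x, x = sG N Y Y₂ := ⟨_, rfl⟩
  rw [← hsn] at z3
  rw [← hsk] at z4
  rw [← hsm] at z5
  rw [← hsg] at z6
  have snp : 0 < sn := by linarith
  have skp : 0 < sk := by linarith
  have smp : 0 < sm := by linarith
  have sgp : 0 < sg := by linarith
  have hEq : sm * sg = Y₂ * sn ^ 2 := by rw [hsm, hsg, hsn]; exact QER_eq hNp Yp Y2p
  have hX2 : 1 ≤ a 0 * sn := by
    have h1 : 1 / a 0 ≤ sn := by
      have : 0 < 1 / a 1 := by positivity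
      linarith
    rw [div_le_iff₀ ha0] at h1
    linarith
  have hX3 : 1 ≤ a 1 * sk := by
    have h1 : 1 / a 1 ≤ sk := by
      have : 0 < 1 / a 0 := by positivity
      linarith
    rw [div_le_iff₀ ha1] at h1
    linarith
  rw [← hsn, ← hsk] at hWm
  -- facts on W
  have hWf : ∀ p ∈ W, a 0 * sn ≤ p.1 ∧ (p.1 : ℝ) ≤ b 0 * sn ∧ a 1 * sk ≤ p.2 ∧ (p.2 : ℝ) ≤ b 1 * sk ∧ 1 ≤ p.1 ∧
      1 ≤ p.2 ∧ Nat.Coprime p.1 p.2 ∧ Nat.Coprime p.1 (p.2 * e') ∧ e1 e p.1 = e' := by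
    intro p hp
    obtain ⟨w1, w2, w3, w4, w5, w6, w7⟩ := (hWm p).1 hp
    have hn1 : 1 ≤ p.1 := by
      have : (0 : ℝ) < p.1 := lt_trans (by positivity) w1
      exact_mod_cast this
    have hk1 : 1 ≤ p.2 := by
      have : (0 : ℝ) < p.2 := lt_trans (by positivity) w3
      exact_mod_cast this
    have hep : e1 e p.1 = e' := by rw [hee]; exact QER_e1_class w6
    refine ⟨w1.le, w2, w3.le, w4, hn1, hk1, w5, ?_, hep⟩
    have h1 : Nat.Coprime p.1 (e1 e p.1) := QER_e1_coprime _ _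
    rw [hep] at h1
    exact Nat.Coprime.mul_right w5 h1
  -- residues
  obtain ⟨S, hSd⟩ : ∃ S : ℕ × ℕ → ℝ, S = fun p => |((F.filter (fun t => t.1 = p)).card : ℝ) -
      ((b 2 - a 2) * sM N Y Y₂ / e) * ((b 3 - a 3) * sG N Y Y₂ / e) * ((b 4 - a 4) * Y) /
        ((p.1 : ℝ) ^ 3 * p.2 * (e1 e (c 0).natAbs : ℝ))| := ⟨_, rfl⟩
  obtain ⟨A₁, hA₁⟩ : ∃ x, x = η₁ * ((D2 + 16) * (D3 + 16)) + κ * (16 * D2 + 16 * D3 + 256) := ⟨_, rfl⟩
  have A₁p : 0 < A₁ := by rw [hA₁]; positivity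
  have hres : ∀ p : ℕ × ℕ, ∃ ra : ℤ × ℤ × ℤ, p ∈ W → RT p.1 p.2 1 1 1 ra ∧
      ∀ (L L' H : ℕ), 1 ≤ L → 1 ≤ L' → 4 * (D4 * Y) ≤ (p.1 : ℝ) ^ 3 * p.2 * e' → R * ((p.1 : ℝ) ^ 3 * p.2 * e') ≤ H * (D4 * Y) →
        κ * sm / e ≤ (L : ℝ) → (L : ℝ) ≤ 2 * κ * sm / e → κ * sg / e ≤ (L' : ℝ) → (L' : ℝ) ≤ 2 * κ * sg / e →
        S p ≤ D4 * Y / ((p.1 : ℝ) ^ 3 * p.2 * e') * (A₁ * (sm / e * (sg / e))) +
          D4 * Y / ((p.1 : ℝ) ^ 3 * p.2 * e') * (C₃ * (√(L * L' : ℝ) * NS L L' (2 * H + 1) (e * (e / e')) p.1 p.2 ra)) := by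
    intro p
    by_cases hp : p ∈ W
    swap
    · exact ⟨(0, 0, 0), fun h => absurd h hp⟩
    obtain ⟨w1, w2, w3, w4, w5, w6, w7, w8, w9⟩ := hWf p hp
    obtain ⟨v1, v2, v3, v4, v5, v6, v7⟩ := (hWm p).1 hp
    obtain ⟨ra, hra, hra2⟩ := hP2 p.1 p.2 e e' w5 w6 he hdvd w8
    refine ⟨ra, fun _ => ⟨hra, ?_⟩⟩
    intro L L' H hL hL' h4 hR4 hL1 hL2 hL3 hL4
    have p1p : (0 : ℝ) < p.1 := by exact_mod_cast w5
    have p2p : (0 : ℝ) < p.2 := by exact_mod_cast w6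
    have hz : b 4 * Y - a 4 * Y = D4 * Y := by rw [hD4]; ring
    have hm : (b 2 * sm - a 2 * sm) = D2 * sm := by rw [hD2]; ring
    have hg : (b 3 * sg - a 3 * sg) = D3 * sg := by rw [hD3]; ring
    have hQ := hra2 (c 2) (c 3) (c 4) (a 2 * sm) (b 2 * sm) (a 3 * sg) (b 3 * sg) (a 4 * Y) (b 4 * Y) L L' H
      (F.filter (fun t => t.1 = p)) (mul_lt_mul_of_pos_right (hab 2) smp) (mul_lt_mul_of_pos_right (hab 3) sgp)
      (mul_lt_mul_of_pos_right (hab 4) Yp) hL hL' (by rw [hz]; exact h4) (by rw [hz]; exact hR4) ?_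
    · rw [hz, hm, hg] at hQ
      have hS1 : S p = |((F.filter (fun t => t.1 = p)).card : ℝ) - D2 * sm / e * (D3 * sg / e) *
          (D4 * Y / ((p.1 : ℝ) ^ 3 * p.2 * e'))| := by
        rw [hSd, ← hD2, ← hD3, ← hD4, ← hsm, ← hsg, ← hee]
        simp only []
        rw [mul_div_assoc (D2 * sm / e * (D3 * sg / e)) (D4 * Y)]
      rw [hS1]
      refine hQ.trans ?_
      have e1 : D2 * sm / e = D2 * (sm / e) := mul_div_assoc _ _ _
      have e2 : D3 * sg / e = D3 * (sg / e) := mul_div_assoc _ _ _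
      have e3 : D2 * sm / (e * L) = D2 * (sm / e) / L := by rw [← div_div, mul_div_assoc]
      have e4 : D3 * sg / (e * L') = D3 * (sg / e) / L' := by rw [← div_div, mul_div_assoc]
      rw [e1, e2, e3, e4]
      have hNS0 : 0 ≤ √(L * L' : ℝ) * NS L L' (2 * H + 1) (e * (e / e')) p.1 p.2 ra := by
        refine mul_nonneg (Real.sqrt_nonneg _) ?_
        unfold NS
        exact Finset.sum_nonneg fun _ _ => Real.sqrt_nonneg _
      have halg := QER_alg (η₁ := η₁) (κ := κ) (C := CP) (D2 := D2) (D3 := D3) (u := sm / e) (w := sg / e)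
        (L := (L : ℝ)) (L' := (L' : ℝ)) (V := D4 * Y / ((p.1 : ℝ) ^ 3 * p.2 * e'))
        (X := √(L * L' : ℝ) * NS L L' (2 * H + 1) (e * (e / e')) p.1 p.2 ra) η₁p.le κp κ1 CP0.le D2p D3p (by positivity)
        (by positivity) (by rw [← mul_div_assoc]; exact hL1) (by rw [← mul_div_assoc]; exact hL2)
        (by rw [← mul_div_assoc]; exact hL3) (by rw [← mul_div_assoc]; exact hL4) (by positivity) hNS0
      rw [← hA₁, ← hC₃] at halg
      exact halg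
    · intro t
      rw [Finset.mem_filter, hFm t]
      constructor
      · rintro ⟨hc, ht⟩
        refine ⟨hc.tt, ht, ?_, ?_, ?_, ?_, hc.z1, hc.z2, hc.cm, hc.cg, ?_⟩
        · rw [hsm]; exact hc.m1
        · rw [hsm]; exact hc.m2
        · rw [hsg]; exact hc.g1
        · rw [hsg]; exact hc.g2
        · have := hc.cR
          rw [ht, w9] at this
          exact this
      · rintro ⟨hT, ht, i1, i2, i3, i4, i5, i6, hcm, hcg, hcR⟩
        have ht' : t.1 = p := ht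
        refine ⟨?_, ht'⟩
        refine ⟨hT, ?_, ?_, ?_, ?_, ?_, ?_, ?_, ?_, i5, i6, ?_, ?_, hcm, hcg, ?_⟩
        · rw [ht', ← hsn]; exact v1
        · rw [ht', ← hsn]; exact v2
        · rw [ht', ← hsk]; exact v3
        · rw [ht', ← hsk]; exact v4
        · rw [← hsm]; exact i1
        · rw [← hsm]; exact i2
        · rw [← hsg]; exact i3
        · rw [← hsg]; exact i4
        · rw [ht']; exact v6
        · rw [ht']; exact v7
        · rw [ht', w9]; exact hcR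
  choose ra hra using hres
  -- the main terms
  obtain ⟨P, hP⟩ : ∃ x, x = A₁ * (D4 * Y) * (sm * sg) := ⟨_, rfl⟩
  have Pp : 0 < P := by rw [hP]; positivity
  have hWsum := QER_W (a₀ := a 0 * sn) (a₁ := a 1 * sk) (A₀ := b 0 * sn) (A₁ := b 1 * sk) (by positivity) (by positivity)
    (by positivity) (by positivity) (W := W) (fun p hp => by
      obtain ⟨w1, w2, w3, w4, w5, w6, -, -⟩ := hWf p hp
      exact ⟨w1, w2, w3, w4, w5, w6⟩)
  have hgsum : ∑ p ∈ W, P / ((p.1 : ℝ) ^ 3 * p.2) ≤ ε * (Y * Y₂) := by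
    have h1 : ∑ p ∈ W, P / ((p.1 : ℝ) ^ 3 * p.2) = P * ∑ p ∈ W, 1 / ((p.1 : ℝ) ^ 3 * p.2) := by
      rw [Finset.mul_sum]
      exact Finset.sum_congr rfl fun p _ => by ring
    rw [h1]
    calc P * ∑ p ∈ W, 1 / ((p.1 : ℝ) ^ 3 * p.2)
        ≤ P * (b 0 * sn * (b 1 * sk) / ((a 0 * sn) ^ 3 * (a 1 * sk))) := by gcongr
      _ = A₁ * (D4 * (b 0 * b 1) / (a 0 ^ 3 * a 1)) * Y * (sm * sg / sn ^ 2) := by
          rw [hP]
          field_simp
      _ = A₁ * B₁ * (Y * Y₂) := by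
          rw [hEq, hB₁]
          field_simp
      _ ≤ ε * (Y * Y₂) := by
          refine mul_le_mul_of_nonneg_right ?_ (by positivity)
          rw [hA₁, add_mul]
          linarith
  obtain ⟨E, hE⟩ : ∃ x, x = 32 * D4 * C₃ * CS * C₁ * ((Y * Y₂) * (Y * Y₂ / N) ^ (3 / 2 : ℝ)) := ⟨_, rfl⟩
  have hE0 : 0 ≤ E := by
    have : 0 ≤ (Y * Y₂ / N) ^ (3 / 2 : ℝ) := Real.rpow_nonneg (by positivity) _
    rw [hE]
    positivity
  have hgoal : ∑ p ∈ W, S p ≤ (ε + (1 + C₄) * (Y * Y₂ / N) ^ (3 / 2 : ℝ)) * (Y * Y₂) := by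
    obtain ⟨I, hI1, hI2, hI3⟩ := hDYB (a 0 * sn) (b 0 * sn) hX2 (by
      have := (hab 0).le
      gcongr)
    obtain ⟨J, hJ1, hJ2, hJ3⟩ := hDYB (a 1 * sk) (b 1 * sk) hX3 (by
      have := (hab 1).le
      gcongr)
    have hcov := QER_cover (W := W) (B := I ×ˢ J)
      (fun b p => b.1 < 2 * p.1 ∧ p.1 ≤ b.1 ∧ b.2 < 2 * p.2 ∧ p.2 ≤ b.2) (fun p hp => by
        obtain ⟨w1, w2, w3, w4, -⟩ := hWf p hp
        obtain ⟨n₁, hn₁, hn₂⟩ := hI3 p.1 w1 w2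
        obtain ⟨k₁, hk₁, hk₂⟩ := hJ3 p.2 w3 w4
        exact ⟨(n₁, k₁), Finset.mem_product.2 ⟨hn₁, hk₁⟩, hn₂.1, hn₂.2, hk₂.1, hk₂.2⟩)
      (u := fun p => max (S p - P / ((p.1 : ℝ) ^ 3 * p.2)) 0) (fun p => le_max_right _ _)
      (E := E) (fun bb hb W' hW' => by
        obtain ⟨N₁, K₁⟩ := bb
        obtain ⟨hbI, hbJ⟩ := Finset.mem_product.1 hb
        obtain ⟨i1, i2, i3⟩ := hI2 N₁ hbI
        obtain ⟨j1, j2, j3⟩ := hJ2 K₁ hbJ
        have hBlk : Blk c₀ C₀' N Y Y₂ N₁ K₁ := by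
          refine ⟨?_, ?_, ?_, ?_⟩
          · rw [← hsn]
            exact (mul_le_mul_of_nonneg_right hc₀a snp.le).trans i2
          · rw [← hsn]
            refine i3.trans ?_
            have h1 : 2 * (b 0 * sn) = 2 * b 0 * sn := by ring
            rw [h1]
            refine mul_le_mul_of_nonneg_right ?_ snp.le
            rw [hC₀']
            linarith
          · rw [← hsk]
            exact (mul_le_mul_of_nonneg_right hc₀b skp.le).trans j2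
          · rw [← hsk]
            refine j3.trans ?_
            have h1 : 2 * (b 1 * sk) = 2 * b 1 * sk := by ring
            rw [h1]
            refine mul_le_mul_of_nonneg_right ?_ skp.le
            rw [hC₀']
            linarith
        obtain ⟨L, L', H, bb, ρ, hEB, hbB, hL1, hL2, hL3, hL4, hR4, h64, hfin⟩ := hSZ N Y Y₂ hN0 hRg N₁ K₁ hBlk
        rw [← hsm] at hL1 hL2
        rw [← hsg] at hL3 hL4
        obtain ⟨T, hT⟩ : ∃ T : ℕ, T = 2 * H + 1 := ⟨_, rfl⟩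
        have hT1 : 1 ≤ T := by omega
        have hT0 : (0 : ℝ) < T := by exact_mod_cast hT1
        rw [← hT] at hEB hbB hfin
        have N₁p : (0 : ℝ) < N₁ := by exact_mod_cast i1
        have K₁p : (0 : ℝ) < K₁ := by exact_mod_cast j1
        have hρ := hEB.ρ0
        have hsub : W' ⊆ pairs N₁ K₁ 1 := by
          intro p hp
          obtain ⟨hp1, hp2, hp3, hp4, hp5⟩ := hW' p hp
          obtain ⟨-, -, -, -, w5, w6, w7, -⟩ := hWf p hp1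
          unfold pairs
          rw [mem_filter, mem_product, mem_Icc, mem_Icc]
          exact ⟨⟨⟨w5, hp3⟩, w6, hp5⟩, hp2, hp4, w7, one_dvd _⟩
        have hee' : 1 ≤ e * (e / e') := by
          have h1 : 0 < e / e' := Nat.div_pos (Nat.le_of_dvd (by omega) hdvd) (by omega)
          exact Nat.mul_pos (by omega) h1
        have hNS := hS N₁ K₁ L L' T (e * (e / e')) 1 1 1 1 1 bb ρ hEB hee' squarefree_one le_rfl le_rfl le_rfl le_rfl rfl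
          W' ra hsub (fun q hq => ⟨Nat.coprime_one_left _, (hra q (hW' q hq).1).1⟩)
        have hbT : bb ^ B * (T : ℝ) ^ (-τ) ≤ 1 := by
          rw [Real.rpow_neg hT0.le, ← div_eq_mul_inv, div_le_one (Real.rpow_pos_of_pos hT0 _)]
          exact hbB
        obtain ⟨Q, hQ⟩ : ∃ x, x = ρ ^ (3 / 2 : ℝ) * ((T : ℝ) ^ (5 / 4 : ℝ) + N₁ * K₁ * (T : ℝ) ^ (1 / 4 : ℝ)) := ⟨_, rfl⟩
        have hQ0 : 0 ≤ Q := by
          have g1 : 0 ≤ ρ ^ (3 / 2 : ℝ) := Real.rpow_nonneg hρ _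
          have g2 : 0 ≤ (T : ℝ) ^ (5 / 4 : ℝ) := Real.rpow_nonneg hT0.le _
          have g3 : 0 ≤ (T : ℝ) ^ (1 / 4 : ℝ) := Real.rpow_nonneg hT0.le _
          rw [hQ]
          positivity
        have hM0 : 0 ≤ (T : ℝ) * (N₁ * K₁) := by positivity
        have hNS2 : ∑ q ∈ W', NS L L' T (e * (e / e')) q.1 q.2 (ra q) ≤ 2 * CS * (T * (N₁ * K₁) + Q) := by
          refine hNS.trans ?_
          simp only [Nat.primeFactors_one, card_empty, zero_add, pow_one, Nat.cast_one, div_one]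
          rw [← hQ]
          have g2 : (T : ℝ) * (N₁ * K₁) + Q * (1 + bb ^ B * (T : ℝ) ^ (-τ)) ≤ 2 * (T * (N₁ * K₁) + Q) := by
            have : Q * (1 + bb ^ B * (T : ℝ) ^ (-τ)) ≤ Q * 2 := mul_le_mul_of_nonneg_left (by linarith) hQ0
            linarith
          calc CS * (T * (N₁ * K₁) + Q * (1 + bb ^ B * (T : ℝ) ^ (-τ)))
              ≤ CS * (2 * (T * (N₁ * K₁) + Q)) := mul_le_mul_of_nonneg_left g2 (by linarith)
            _ = _ := by ring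
        rw [← hQ] at hfin
        have hone : ∀ p ∈ W', max (S p - P / ((p.1 : ℝ) ^ 3 * p.2)) 0 ≤
            16 * D4 * C₃ * (Y / ((N₁ : ℝ) ^ 3 * K₁)) * √(L * L' : ℝ) * NS L L' T (e * (e / e')) p.1 p.2 (ra p) := by
          intro p hp
          obtain ⟨hp1, hp2, hp3, hp4, hp5⟩ := hW' p hp
          obtain ⟨w1, w2, w3, w4, w5, w6, w7, w8, w9⟩ := hWf p hp1
          have p1p : (0 : ℝ) < p.1 := by exact_mod_cast w5
          have p2p : (0 : ℝ) < p.2 := by exact_mod_cast w6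
          have q1 : (N₁ : ℝ) ≤ 2 * p.1 := by exact_mod_cast hp2.le
          have q2 : (p.1 : ℝ) ≤ N₁ := by exact_mod_cast hp3
          have q3 : (K₁ : ℝ) ≤ 2 * p.2 := by exact_mod_cast hp4.le
          have q4 : (p.2 : ℝ) ≤ K₁ := by exact_mod_cast hp5
          have q5 : (N₁ : ℝ) ^ 3 * K₁ ≤ 16 * ((p.1 : ℝ) ^ 3 * p.2) := by
            calc (N₁ : ℝ) ^ 3 * K₁ ≤ (2 * p.1) ^ 3 * (2 * p.2) := by gcongr
              _ = _ := by ring
          have hNS0 : 0 ≤ NS L L' T (e * (e / e')) p.1 p.2 (ra p) := by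
            unfold NS
            exact Finset.sum_nonneg fun _ _ => Real.sqrt_nonneg _
          have h4 : 4 * (D4 * Y) ≤ (p.1 : ℝ) ^ 3 * p.2 * e' := by
            have h1 : (N₁ : ℝ) ^ 3 * K₁ * e' ≤ 16 * ((p.1 : ℝ) ^ 3 * p.2) * e' := by gcongr
            linarith
          have hR5 : R * ((p.1 : ℝ) ^ 3 * p.2 * e') ≤ H * (D4 * Y) := by
            refine le_trans ?_ hR4
            gcongr
          have h5 := (hra p hp1).2 L L' H hEB.L1 hEB.L1' h4 hR5 hL1 hL2 hL3 hL4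
          rw [← hT] at h5
          have h6 : D4 * Y / ((p.1 : ℝ) ^ 3 * p.2 * e') * (A₁ * (sm / e * (sg / e))) ≤ P / ((p.1 : ℝ) ^ 3 * p.2) := by
            rw [hP]
            have h7 : D4 * Y / ((p.1 : ℝ) ^ 3 * p.2 * e') ≤ D4 * Y / ((p.1 : ℝ) ^ 3 * p.2) :=
              div_le_div_of_nonneg_left (by positivity) (by positivity) (le_mul_of_one_le_right (by positivity) he'R)
            have h8 : sm / e * (sg / e) ≤ sm * sg :=
              mul_le_mul (div_le_self smp.le heR) (div_le_self sgp.le heR) (by positivity) smp.le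
            calc D4 * Y / ((p.1 : ℝ) ^ 3 * p.2 * e') * (A₁ * (sm / e * (sg / e)))
                ≤ D4 * Y / ((p.1 : ℝ) ^ 3 * p.2) * (A₁ * (sm * sg)) := by gcongr
              _ = _ := by ring
          have h9 : D4 * Y / ((p.1 : ℝ) ^ 3 * p.2 * e') ≤ 16 * D4 * (Y / ((N₁ : ℝ) ^ 3 * K₁)) := by
            have h10 : D4 * Y / ((p.1 : ℝ) ^ 3 * p.2 * e') ≤ D4 * Y / ((N₁ : ℝ) ^ 3 * K₁ / 16) := by
              refine div_le_div_of_nonneg_left (by positivity) (by positivity) ?_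
              calc (N₁ : ℝ) ^ 3 * K₁ / 16 ≤ (p.1 : ℝ) ^ 3 * p.2 := by linarith
                _ ≤ (p.1 : ℝ) ^ 3 * p.2 * e' := le_mul_of_one_le_right (by positivity) he'R
            refine h10.trans (le_of_eq ?_)
            field_simp
          refine max_le ?_ (by positivity)
          calc S p - P / ((p.1 : ℝ) ^ 3 * p.2)
              ≤ D4 * Y / ((p.1 : ℝ) ^ 3 * p.2 * e') * (C₃ * (√(L * L' : ℝ) * NS L L' T (e * (e / e')) p.1 p.2 (ra p))) := by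
                linarith
            _ ≤ 16 * D4 * (Y / ((N₁ : ℝ) ^ 3 * K₁)) * (C₃ * (√(L * L' : ℝ) * NS L L' T (e * (e / e')) p.1 p.2 (ra p))) :=
                mul_le_mul_of_nonneg_right h9 (by positivity)
            _ = _ := by ring
        have hsum := Finset.sum_le_sum hone
        rw [← Finset.mul_sum] at hsum
        refine hsum.trans ?_
        calc 16 * D4 * C₃ * (Y / ((N₁ : ℝ) ^ 3 * K₁)) * √(L * L' : ℝ) * ∑ p ∈ W', NS L L' T (e * (e / e')) p.1 p.2 (ra p)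
            ≤ 16 * D4 * C₃ * (Y / ((N₁ : ℝ) ^ 3 * K₁)) * √(L * L' : ℝ) * (2 * CS * (T * (N₁ * K₁) + Q)) :=
              mul_le_mul_of_nonneg_left hNS2 (by positivity)
          _ = 32 * D4 * C₃ * CS * (Y / ((N₁ : ℝ) ^ 3 * K₁) * (√(L * L' : ℝ) * (T * (N₁ * K₁) + Q))) := by ring
          _ ≤ 32 * D4 * C₃ * CS * (C₁ * ((Y * Y₂) * (Y * Y₂ / N) ^ (3 / 2 : ℝ))) :=
              mul_le_mul_of_nonneg_left hfin (by positivity)
          _ = E := by rw [hE]; ring)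
    have hcardB : (((I ×ˢ J).card : ℕ) : ℝ) ≤ B₂ := by
      rw [Finset.card_product]
      push_cast
      rw [hB₂]
      have e0 : b 0 * sn / (a 0 * sn) = b 0 / a 0 := mul_div_mul_right _ _ snp.ne'
      have e1 : b 1 * sk / (a 1 * sk) = b 1 / a 1 := mul_div_mul_right _ _ skp.ne'
      rw [e0] at hI1
      rw [e1] at hJ1
      exact mul_le_mul hI1 hJ1 (by positivity) (by positivity)
    have hrp : 0 ≤ (Y * Y₂ / N) ^ (3 / 2 : ℝ) := Real.rpow_nonneg (by positivity) _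
    have hfin2 : (((I ×ˢ J).card : ℕ) : ℝ) * E ≤ (1 + C₄) * (Y * Y₂ / N) ^ (3 / 2 : ℝ) * (Y * Y₂) := by
      calc (((I ×ˢ J).card : ℕ) : ℝ) * E ≤ B₂ * E := mul_le_mul_of_nonneg_right hcardB hE0
        _ = C₄ * (Y * Y₂ / N) ^ (3 / 2 : ℝ) * (Y * Y₂) := by rw [hE, hC₄]; ring
        _ ≤ (1 + C₄) * (Y * Y₂ / N) ^ (3 / 2 : ℝ) * (Y * Y₂) := by
            refine mul_le_mul_of_nonneg_right (mul_le_mul_of_nonneg_right (by linarith) hrp) (by positivity)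
    calc ∑ p ∈ W, S p ≤ ∑ p ∈ W, (P / ((p.1 : ℝ) ^ 3 * p.2) + max (S p - P / ((p.1 : ℝ) ^ 3 * p.2)) 0) := by
          refine Finset.sum_le_sum fun p _ => ?_
          have := le_max_left (S p - P / ((p.1 : ℝ) ^ 3 * p.2)) 0
          linarith
      _ = ∑ p ∈ W, P / ((p.1 : ℝ) ^ 3 * p.2) + ∑ p ∈ W, max (S p - P / ((p.1 : ℝ) ^ 3 * p.2)) 0 :=
          Finset.sum_add_distrib
      _ ≤ ε * (Y * Y₂) + (1 + C₄) * (Y * Y₂ / N) ^ (3 / 2 : ℝ) * (Y * Y₂) := add_le_add hgsum (hcov.trans hfin2)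
      _ = (ε + (1 + C₄) * (Y * Y₂ / N) ^ (3 / 2 : ℝ)) * (Y * Y₂) := by ring
  rw [hSd] at hgoal
  exact hgoal

end Pool.Agent.T7
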